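import Pool.Agent.BEH.Stmts

/-!
# SYE of the squad BEH (problem MP_be01ff_an)

Systems of holes exist.
-/

set_option autoImplicit false

namespace Pool.Agent.BEH.H69

open Set Filter Topology MeasureTheory
open Pool.Agent.BE01 Pool.Agent.BEL Pool.Agent.BEH

theorem small_radius {d J : ℕ} {Ω : Set (En d)} (hΩ : IsOpen Ω) (x : Fin J → En d)
    (hx : Function.Injective x) (hxΩ : ∀ j, x j ∈ Ω) {δ : ℝ} (hδ : 0 < δ) :
    ∃ R : ℝ, 0 < R ∧ (∀ j, Metric.closedBall (x j) R ⊆ Ω) ∧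
      (∀ i j, i ≠ j → Disjoint (Metric.closedBall (x i) R) (Metric.closedBall (x j) R)) ∧
      J * R < δ := by
  have h1 : ∀ᶠ R : ℝ in 𝓝[>] 0, ∀ j, Metric.closedBall (x j) R ⊆ Ω := by
    refine Filter.eventually_all.2 fun j => ?_
    obtain ⟨ρ, hρ, hsub⟩ := Metric.nhds_basis_closedBall.mem_iff.1 (hΩ.mem_nhds (hxΩ j))
    filter_upwards [Ioo_mem_nhdsGT hρ] with R hR
    exact (Metric.closedBall_subset_closedBall hR.2.le).trans hsub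
  have h2 : ∀ᶠ R : ℝ in 𝓝[>] 0, ∀ i j, i ≠ j →
      Disjoint (Metric.closedBall (x i) R) (Metric.closedBall (x j) R) := by
    refine Filter.eventually_all.2 fun i => Filter.eventually_all.2 fun j => ?_
    by_cases hij : i = j
    · exact Filter.Eventually.of_forall fun R h => absurd hij h
    · have hd : 0 < dist (x i) (x j) := dist_pos.2 (fun h => hij (hx h))
      filter_upwards [Ioo_mem_nhdsGT (half_pos hd)] with R hR _
      refine Metric.closedBall_disjoint_closedBall ?_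
      have := hR.2
      linarith
  have h3 : ∀ᶠ R : ℝ in 𝓝[>] 0, J * R < δ := by
    have hp : 0 < δ / (J + 1) := by positivity
    filter_upwards [Ioo_mem_nhdsGT hp] with R hR
    have h4 : R * (J + 1) < δ := by
      have := hR.2
      rwa [lt_div_iff₀ (by positivity)] at this
    have h5 := hR.1
    nlinarith
  have h4 : ∀ᶠ R : ℝ in 𝓝[>] 0, 0 < R := self_mem_nhdsWithin
  obtain ⟨R, ⟨⟨hR1, hR2⟩, hR3⟩, hR4⟩ := (((h1.and h2).and h3).and h4).exists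
  exact ⟨R, hR4, hR1, hR2, hR3⟩

theorem small_eps {J : ℕ} (w γ₀ : Fin J → ℝ) (hw : ∀ j, 0 < w j) (hγ : ∀ j, 0 < γ₀ j) :
    ∃ ε₀ : ℝ, 0 < ε₀ ∧ ∀ ε : ℝ, 0 < ε → ε < ε₀ → ∀ j, ε * w j < γ₀ j := by
  have h1 : ∀ᶠ ε : ℝ in 𝓝[>] 0, ∀ j, ε * w j < γ₀ j := by
    refine Filter.eventually_all.2 fun j => ?_
    filter_upwards [Ioo_mem_nhdsGT (div_pos (hγ j) (hw j))] with ε hε
    have := hε.2
    rwa [lt_div_iff₀ (hw j)] at this
  obtain ⟨u, hu, hsub⟩ := mem_nhdsGT_iff_exists_Ioo_subset.1 h1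
  exact ⟨u, hu, fun ε h0 h => hsub ⟨h0, h⟩⟩

/-- SYE. -/
theorem sye (leb : LebStmt) (qua : QuaStmt) (hol : HolStmt) : SyeStmt := by
  intro d Ω N B δ f hd hΩ hf horth hδ
  have hd0 : 0 < d := by omega
  have hS : ∀ᵐ x : En d, x ∈ {x : En d | ∀ i, Leb (f i) x} :=
    ae_all_iff.2 fun i => leb d B (f i) hd0 (hf i)
  obtain ⟨J, x, w, hinj, hx, hq⟩ := qua d Ω N B f _ hΩ hf horth hS
  obtain ⟨R, hR, hsub, hdis, hJR⟩ := small_radius hΩ.1 x hinj (fun j => (hx j).1) hδ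
  obtain ⟨D, hD, hhol⟩ := hol d hd R hR
  refine ⟨J, x, w, R, D, hR, hD, hJR, ?_⟩
  intro κ hκ
  have h1 : ∀ j, ∃ γ₀ : ℝ, 0 < γ₀ ∧ ∀ γ : ℝ, 0 < γ → γ < γ₀ →
      ∃ (r : ℝ) (η ψ g h : En d → ℝ), 0 < r ∧ r < R ∧ Cut f (x j) R κ γ r η ∧
        Fld (x j) R D γ r ψ g h ∧ ∀ i, |(∫ y, f i y * g y) - f i (x j)| ≤ κ :=
    fun j => hhol N B f (x j) κ hf (hx j).2.1 hκ
  choose γ₀ hγ₀ hγ using h1
  obtain ⟨ε₀, hε₀, hε⟩ := small_eps w γ₀ (fun j => (hx j).2.2) hγ₀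
  refine ⟨ε₀, hε₀, ?_⟩
  intro ε h0 h
  have h2 := fun j => hγ j (ε * w j) (mul_pos h0 (hx j).2.2) (hε ε h0 h j)
  choose r η ψ g h' hr0 hrR hcut hfld hval using h2
  exact ⟨r, η, ψ, g, h', ⟨fun j => (hx j).2.2, fun j => ⟨hr0 j, hrR j⟩, hsub, hdis, hq, hcut,
    hfld, hval⟩⟩

end Pool.Agent.BEH.H69
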