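import Pool.Agent.BEH.StmtsD
import Pool.Agent.Helper6_BEH.DENa
import Pool.Agent.Helper53_BEL.Fin

/-!
# DED of the squad BEH (problem MP_be01ff_an)

Domains with small holes, every dimension (port of Helper6_BEH/DENa.lean).
-/

set_option autoImplicit false

namespace Pool.Agent.BEH.H69

open Set Filter Topology MeasureTheory
open scoped InnerProductSpace ENNReal
open Pool.Agent.BE01 Pool.Agent.BEL Pool.Agent.BEH

noncomputable section

theorem ded_aux (emp : EmpStmt) (eig : EigStmt) (mmx : MmxStmt) (egk : EgkStmt)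
    (red : RedStmt) (syd : SydStmt) (geo : GeoStmt) (upp : UppStmt) (low : LowStmt)
    (smd : SmdStmt) (std : StdStmt) (pow : PowStmt) : DedStmt := by
  intro d hd2 huni Ω p a δ hΩ hconn hp ha hδ
  have hd0 : 0 < d := by omega
  obtain ⟨ι, hemb, hgrf⟩ := emp d Ω hd0 hΩ
  obtain ⟨b, e, om, hspec⟩ := eig d Ω ι hd0 hΩ hemb
  have hok : Ok Ω ι b e om := ⟨hΩ, hemb, hgrf, hspec⟩
  obtain ⟨C, hC, hstd⟩ := std d hd0
  have hpos := hspec.pos
  -- constants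
  obtain ⟨V, hV⟩ : ∃ V : ℝ, V = volume.real Ω + 1 := ⟨_, rfl⟩
  have hVΩ : 0 ≤ volume.real Ω := measureReal_nonneg
  have hV0 : 0 < V := by linarith
  have hd4 : (0 : ℝ) ≤ (d : ℝ) / 4 := by positivity
  obtain ⟨B₁, hB₁⟩ : ∃ B₁ : ℝ, B₁ = max (om 0 ^ 2 + 3) (C * (om 0 ^ 2 + 3) ^ ((d : ℝ) / 4)) :=
    ⟨_, rfl⟩
  have hVp : 0 < V ^ p := pow_pos hV0 p
  obtain ⟨M, hM⟩ := huni Ω p a B₁ (V ^ p)⁻¹ hΩ hp ha (inv_pos.2 hVp)
  obtain ⟨N, hN1, hNom⟩ : ∃ N : ℕ, 0 < N ∧ (10 + (M : ℝ)) * om 0 < om N := by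
    have h1 := hspec.top.eventually_gt_atTop ((10 + (M : ℝ)) * om 0)
    obtain ⟨N, hN, hN'⟩ := (h1.and (eventually_gt_atTop 0)).exists
    exact ⟨N, hN', hN⟩
  have hom0 := hpos 0
  have hM0 : (0 : ℝ) ≤ M := Nat.cast_nonneg M
  have hNN : 100 * om 0 ^ 2 ≤ om N ^ 2 := by
    have h1 : 10 * om 0 ≤ om N := by nlinarith
    nlinarith
  obtain ⟨B, f, hB, hBm, hfb, hf0⟩ := red d Ω ι b e om hd0 hok N
  have horth : ∀ i k : Fin N, ∫ y in Ω, f i y * f k y = if i = k then 1 else 0 := by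
    intro i k
    have h1 : ∫ y in Ω, f i y * f k y = ⟪b i, b k⟫_ℝ := by
      rw [L2.inner_def]
      refine integral_congr_ae ?_
      filter_upwards [hfb i, hfb k] with y h2 h3
      rw [h2, h3]
      simp only [RCLike.inner_apply, conj_trivial]
      ring
    rw [h1, orthonormal_iff_ite.mp b.orthonormal]
    by_cases h : i = k
    · rw [if_pos h, if_pos (by rw [h])]
    · rw [if_neg h, if_neg (fun h' => h (Fin.ext h'))]
  obtain ⟨J, x, w, R, D, hR, hD, hJR, hsys⟩ := syd d Ω N B δ f hd2 hΩ hBm horth hδ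
  obtain ⟨κ₀, hκ₀, hupp⟩ := upp d Ω ι b e om N B f J w hok hBm hfb
  obtain ⟨κ₁, ε₁, hκ₁, hε₁, hlow⟩ := low d Ω ι b e om N B f J w D hok hN1 hNN hBm hfb hD
  obtain ⟨ε₀, hε₀, hsys'⟩ := hsys (min κ₀ κ₁) (lt_min hκ₀ hκ₁)
  obtain ⟨ε₂, hε₂, hgap⟩ := H6.gapM hpos hspec.mono hspec.top M
  -- choice of ε
  set ε : ℝ := min (min (1 / 2) (ε₀ / 2)) (min (ε₁ / 2) ε₂) with hε
  have hε0 : 0 < ε := by
    rw [hε]
    exact lt_min (lt_min (by norm_num) (by linarith)) (lt_min (by linarith) hε₂)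
  have e1 : ε ≤ 1 / 2 := (min_le_left _ _).trans (min_le_left _ _)
  have e2 : ε ≤ ε₀ / 2 := (min_le_left _ _).trans (min_le_right _ _)
  have e3 : ε ≤ ε₁ / 2 := (min_le_right _ _).trans (min_le_left _ _)
  have e4 : ε ≤ ε₂ := (min_le_right _ _).trans (min_le_right _ _)
  obtain ⟨r, η, ψ, g, h, hS⟩ := hsys' ε hε0 (by linarith)
  obtain ⟨hopen, hcon'⟩ := geo d Ω J x R r hd2 hΩ.1 hconn hS.r_pos hS.sub hS.dis
  have hsub : Hl Ω x r ⊆ Ω := fun _ hy => hy.1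
  have hΩ' : Dom (Hl Ω x r) := ⟨hopen, hΩ.2.1.subset hsub, hcon'.nonempty⟩
  obtain ⟨ι', hemb', hgrf'⟩ := emp d (Hl Ω x r) hd0 hΩ'
  obtain ⟨b', e', om', hspec'⟩ := eig d (Hl Ω x r) ι' hd0 hΩ' hemb'
  have hok' : Ok (Hl Ω x r) ι' b' e' om' := ⟨hΩ', hemb', hgrf', hspec'⟩
  have hpos' := hspec'.pos
  have hU : ∀ m, m < N → om' m ^ 2 ≤ om m ^ 2 + 3 * ε :=
    hupp x R D (min κ₀ κ₁) ε r η ψ g h (lt_min hκ₀ hκ₁) (min_le_left _ _) hε0 (by linarith) hS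
      ι' b' e' om' hok'
  have hU0 := hU 0 hN1
  have hL : om 0 ^ 2 + 2 / 5 * ε ≤ om' 0 ^ 2 :=
    hlow x R (min κ₀ κ₁) ε r η ψ g h (lt_min hκ₀ hκ₁) (min_le_right _ _) hε0 (by linarith) hS
      ι' b' e' om' hok' hU0
  have hsimple := smd d (Hl Ω x r) ι' b' e' om' hd2 hok' hcon'
  obtain ⟨hE1, hE2, hE3⟩ := egk d (Hl Ω x r) ι' b' e' om' hok'
  have hnorm : ‖b' 0‖ = 1 := b'.orthonormal.1 0
  have hl0 : 0 < om' 0 ^ 2 := pow_pos (hpos' 0) 2
  have hl3 : om' 0 ^ 2 ≤ om 0 ^ 2 + 3 := by linarith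
  have hlB : om' 0 ^ 2 ≤ B₁ := by
    rw [hB₁]
    exact hl3.trans (le_max_left _ _)
  have hbd : ∀ᵐ y ∂(mu (Hl Ω x r)), |b' 0 y| ≤ B₁ := by
    filter_upwards [hstd (Hl Ω x r) ι' b' e' om' hok' _ _ (hE1 0)] with y hy
    refine hy.trans ?_
    rw [hnorm, mul_one, abs_of_nonneg hl0.le, hB₁]
    refine le_trans ?_ (le_max_right _ _)
    exact mul_le_mul_of_nonneg_left (Real.rpow_le_rpow hl0.le hl3 hd4) hC.le
  have hVle : volume.real (Hl Ω x r) ≤ V := by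
    have h1 : volume.real (Hl Ω x r) ≤ volume.real Ω :=
      measureReal_mono hsub hΩ.2.1.measure_lt_top.ne
    rw [hV]
    linarith
  have hpw := pow d (Hl Ω x r) p B₁ V (b' 0) hΩ' hbd hnorm hVle
  have hβ : (V ^ p)⁻¹ ≤ ∫ y, b' 0 y ^ (2 * p + 2) ∂(mu (Hl Ω x r)) := by
    rw [inv_eq_one_div, div_le_iff₀ hVp, mul_comm]
    exact hpw
  have hnonres : ∀ n : ℕ, Odd n → 3 ≤ n → n ≤ M → ∀ u,
      IsEig (Hl Ω x r) ((n : ℝ) ^ 2 * om' 0 ^ 2) u → u = 0 := by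
    intro n _ hn3 hnM u hu
    by_contra hu0
    obtain ⟨k, hk⟩ := hE2 _ u hu hu0
    have hn3' : (3 : ℝ) ≤ n := by exact_mod_cast hn3
    have hnM' : (n : ℝ) ≤ M := by
      have : n ≤ M := hnM
      exact_mod_cast this
    have hn9 : (9 : ℝ) ≤ (n : ℝ) ^ 2 := by nlinarith
    rcases hgap n hnM k with h1 | h1
    · have hkN : k < N := by
        by_contra hge
        have h2 : om N ≤ om k := hspec.mono (not_lt.mp hge)
        have h3 : (n : ℝ) * om 0 < om k := by nlinarith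
        have h4 : ((n : ℝ) * om 0) ^ 2 < om k ^ 2 :=
          pow_lt_pow_left₀ h3 (by positivity) (by norm_num)
        rw [mul_pow] at h4
        linarith
      have h5 := hU k hkN
      have h6 : (n : ℝ) ^ 2 * (om 0 ^ 2 + 2 / 5 * ε) ≤ (n : ℝ) ^ 2 * om' 0 ^ 2 :=
        mul_le_mul_of_nonneg_left hL (by positivity)
      have h7 : 9 * (2 / 5 * ε) ≤ (n : ℝ) ^ 2 * (2 / 5 * ε) :=
        mul_le_mul_of_nonneg_right hn9 (by positivity)
      nlinarith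
    · have h2 : om k ^ 2 ≤ om' k ^ 2 :=
        pow_le_pow_left₀ (hpos k).le (mmx d Ω (Hl Ω x r) ι b e om ι' b' e' om' hok hok' hsub k) 2
      have h3 : (n : ℝ) ^ 2 * om' 0 ^ 2 ≤ (n : ℝ) ^ 2 * (om 0 ^ 2 + 3 * ε₂) :=
        mul_le_mul_of_nonneg_left (by linarith) (by positivity)
      linarith
  have hfin := hM (Hl Ω x r) hΩ' hsub (om' 0 ^ 2) (b' 0) hl0 hlB hnorm hbd hβ (hE1 0)
    (hE3 hsimple) hnonres
  refine ⟨J, x, r, fun j => ⟨(hS.r_pos j).1, ?_⟩, fun i j hij => ?_, ?_, hcon', hfin⟩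
  · exact (Metric.closedBall_subset_closedBall (hS.r_pos j).2.le).trans (hS.sub j)
  · exact (hS.dis i j hij).mono (Metric.closedBall_subset_closedBall (hS.r_pos i).2.le)
      (Metric.closedBall_subset_closedBall (hS.r_pos j).2.le)
  · refine lt_of_le_of_lt ?_ hJR
    calc ∑ j, r j ≤ ∑ _j : Fin J, R := Finset.sum_le_sum fun j _ => (hS.r_pos j).2.le
      _ = J * R := by simp

/-- DED. -/
theorem ded (mmx : MmxStmt) (egk : EgkStmt) (red : RedStmt) (syd : SydStmt) (geo : GeoStmt)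
    (upp : UppStmt) (low : LowStmt) (smd : SmdStmt) (std : StdStmt) (pow : PowStmt) : DedStmt :=
  ded_aux BEL.H53.empA BEL.H53.eigA mmx egk red syd geo upp low smd std pow

end

end Pool.Agent.BEH.H69
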